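import Pool.Agent.Helper58.IQ.S2c

/-!
KU1: Hilbert's theorem 90 for `Gal(Kb/K)` (continuous cocycles); KU3: the Galois module `W[3]` is
discrete.
-/

open scoped NumberField Topology
open WeierstrassCurve

namespace Pool.Agent.Helper99.IS

open Pool.Agent.Helper58.IQ

variable {K : Type*} [Field K]

/-- Continuous Hilbert 90. -/
theorem hilbert90 (c : GK K → Kb K)
    (hc : ∀ g h, c (g * h) = c g * g (c h)) (h0 : ∀ g, c g ≠ 0) (hl : IsLocallyConstant c) :
    ∃ r : Kb K, r ≠ 0 ∧ ∀ g : GK K, g r = c g * r := by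
  classical
  have hc1 : c 1 = 1 := by
    have h := hc 1 1
    rw [mul_one, AlgEquiv.one_apply] at h
    have h2 : c 1 * 1 = c 1 * c 1 := by rw [mul_one]; exact h
    exact (mul_left_cancel₀ (h0 1) h2).symm
  -- the cocycle is trivial on an open subgroup
  have hnh : {g : GK K | c g = 1} ∈ 𝓝 (1 : GK K) := by
    have := hl.isOpen_fiber 1
    exact this.mem_nhds hc1
  obtain ⟨L, hfin, hL⟩ := (krullTopology_mem_nhds_one_iff K (Kb K) _).mp hnh
  set U : Subgroup (GK K) := L.fixingSubgroup with hU
  have hUc : ∀ u ∈ U, c u = 1 := fun u hu => hL hu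
  have hUfix : ∀ u ∈ U, ∀ a : L, u (a : Kb K) = a := fun u hu a =>
    (L.mem_fixingSubgroup_iff u).mp hu a a.2
  -- restriction to `L`
  set res : GK K → (L →ₐ[K] Kb K) := fun g => (g : Kb K →ₐ[K] Kb K).comp L.val with hres
  have hresinj : ∀ g g' : GK K, res g = res g' → (g : GK K ⧸ U) = g' := by
    intro g g' he
    rw [QuotientGroup.eq, hU, IntermediateField.mem_fixingSubgroup_iff]
    intro a ha
    have h1 : g a = g' a := by
      have := congrArg (fun f : L →ₐ[K] Kb K => f ⟨a, ha⟩) he
      exact this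
    rw [AlgEquiv.mul_apply, ← h1]
    exact g.symm_apply_apply a
  have hout : ∀ q : GK K ⧸ U, ((q.out : GK K) : GK K ⧸ U) = q := fun q => q.out_eq'
  have hqinj : Function.Injective (fun q : GK K ⧸ U => res q.out) := by
    intro q q' he
    rw [← hout q, ← hout q']
    exact hresinj _ _ he
  haveI : Finite (GK K ⧸ U) := Finite.of_injective _ hqinj
  letI : Fintype (GK K ⧸ U) := Fintype.ofFinite _
  set F : L → (GK K ⧸ U) → Kb K := fun a q => c q.out * q.out (a : Kb K) with hF
  have hFg : ∀ (a : L) (g : GK K), F a (g : GK K ⧸ U) = c g * g (a : Kb K) := by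
    intro a g
    obtain ⟨u, hu⟩ := QuotientGroup.mk_out_eq_mul U g
    simp only [hF]
    rw [hu, hc, hUc u u.2, map_one, mul_one, AlgEquiv.mul_apply, hUfix u u.2 a]
  -- a nonzero sum
  have hne : ∃ a : L, ∑ q, F a q ≠ 0 := by
    by_contra hcon
    push Not at hcon
    have hli := (linearIndependent_monoidHom L (Kb K)).comp
      (fun q : GK K ⧸ U => ((res q.out : L →ₐ[K] Kb K) : L →* Kb K)) (by
        intro q q' he
        apply hqinj
        apply AlgHom.ext
        intro a
        exact congrArg (fun f : L →* Kb K => f a) he)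
    rw [Fintype.linearIndependent_iff] at hli
    have := hli (fun q => c q.out) (by
      funext a
      simp only [Finset.sum_apply, Pi.smul_apply, Function.comp_apply, smul_eq_mul, Pi.zero_apply]
      exact hcon a) ((1 : GK K) : GK K ⧸ U)
    exact h0 _ this
  obtain ⟨a, ha⟩ := hne
  have hinv : ∀ g : GK K, c g * g (∑ q, F a q) = ∑ q, F a q := by
    intro g
    rw [map_sum, Finset.mul_sum]
    rw [← Equiv.sum_comp (MulAction.toPerm g : Equiv.Perm (GK K ⧸ U)) (F a)]
    refine Finset.sum_congr rfl fun q _ => ?_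
    have h1 : (MulAction.toPerm g : Equiv.Perm (GK K ⧸ U)) q = ((g * q.out : GK K) : GK K ⧸ U) := by
      conv_lhs => rw [← hout q]
      rfl
    rw [h1, hFg]
    simp only [hF]
    rw [map_mul, hc, AlgEquiv.mul_apply]
    ring
  refine ⟨(∑ q, F a q)⁻¹, inv_ne_zero ha, fun g => ?_⟩
  rw [map_inv₀]
  have h2 := hinv g
  have h3 : g (∑ q, F a q) ≠ 0 := by
    rw [Ne, map_eq_zero_iff _ g.injective]; exact ha
  rw [inv_eq_iff_eq_inv, mul_inv, inv_inv]
  field_simp
  rw [eq_div_iff (h0 g), mul_comm]
  exact h2

/-- The stabilizer of a point of `Kb` is open. -/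
theorem isOpen_fix (x : Kb K) : IsOpen {g : GK K | g x = x} := by
  have := stabilizer_isOpen_of_isIntegral (K := K) (L := Kb K) x
  exact this

/-- The Galois module of points is discrete. -/
theorem cont_pts (W : WeierstrassCurve K) (P : Pts W) :
    IsOpen {g : GK K | ptsRep W g P = P} := by
  rcases P with _ | ⟨x, y, hP⟩
  · have : {g : GK K | ptsRep W g (Affine.Point.zero) = Affine.Point.zero} = Set.univ := by
      ext g
      simp only [Set.mem_setOf_eq, Set.mem_univ, iff_true]
      rfl
    rw [this]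
    exact isOpen_univ
  · have : {g : GK K | ptsRep W g (Affine.Point.some x y hP) = Affine.Point.some x y hP}
        = {g : GK K | g x = x} ∩ {g : GK K | g y = y} := by
      ext g
      simp only [Set.mem_setOf_eq, Set.mem_inter_iff]
      change Affine.Point.some (g x) (g y) _ = Affine.Point.some x y hP ↔ _
      rw [Affine.Point.some.injEq]
    rw [this]
    exact (isOpen_fix x).inter (isOpen_fix y)

theorem cont_tor (W : WeierstrassCurve K) (x : tor3 W) :
    IsOpen {g : GK K | torRep W g x = x} := by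
  have : {g : GK K | torRep W g x = x} = {g : GK K | ptsRep W g (x : Pts W) = (x : Pts W)} := by
    ext g
    simp only [Set.mem_setOf_eq]
    rw [Subtype.ext_iff]
    rfl
  rw [this]
  exact cont_pts W x

end Pool.Agent.Helper99.IS
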