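import Pool.Agent.Helper99.IS.Isog
import Pool.Agent.Helper58.IQ.Curve

/-!
The explicit 3-isogeny `E d a b → E (-3 d) a ((27 b - 4 a³ d) / 9)` over a field `K` of
characteristic zero, as an isogeny in the sense of `IsIsogeny`, with its kernel.
-/

open WeierstrassCurve WeierstrassCurve.Affine

namespace Pool.Agent.Helper99.IS

open Pool.Agent.Helper58.IQ

lemma delta_E {F : Type*} [Field F] (d a b : F) :
    (E d a b).Δ = 16 * d ^ 2 * b ^ 3 * (4 * a ^ 3 * d - 27 * b) := by
  simp only [WeierstrassCurve.Δ, WeierstrassCurve.b₂, WeierstrassCurve.b₄, WeierstrassCurve.b₆,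
    WeierstrassCurve.b₈, E]
  ring

lemma good_delta {F : Type*} [Field F] [CharZero F] {d a b : F} (h : Good d a b) :
    (E d a b).Δ ≠ 0 := by
  obtain ⟨hd, hb, hab⟩ := h
  rw [delta_E]
  exact mul_ne_zero (mul_ne_zero (mul_ne_zero (by norm_num) (pow_ne_zero _ hd))
    (pow_ne_zero _ hb)) (sub_ne_zero.mpr hab)

lemma good_dual {F : Type*} [Field F] [CharZero F] {d a b : F} (h : Good d a b) :
    Good (-3 * d) a ((27 * b - 4 * a ^ 3 * d) / 9) := by
  obtain ⟨hd, hb, hab⟩ := h
  refine ⟨mul_ne_zero (by norm_num) hd, ?_, ?_⟩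
  · intro h0
    apply hab
    have : (27 * b - 4 * a ^ 3 * d) = 0 := by
      rcases div_eq_zero_iff.mp h0 with h1 | h1
      · exact h1
      · exact absurd h1 (by norm_num)
    linear_combination -this
  · intro h0
    apply hb
    have : (81 : F) * b = 0 := by linear_combination -h0
    exact (mul_eq_zero.mp this).resolve_left (by norm_num)

variable {K : Type*} [Field K] [CharZero K]

/-- The dual parameter. -/
def dualB (d a b : K) : K := (27 * b - 4 * a ^ 3 * d) / 9

lemma isogData {d a b : K} (h : Good d a b) :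
    Isog (Affine.baseChange (E d a b) (Kb K))
      (Affine.baseChange (E (-3 * d) a ((27 * b - 4 * a ^ 3 * d) / 9)) (Kb K))
      (algebraMap K (Kb K) (d * a ^ 2)) (algebraMap K (Kb K) (d * a * b))
      (algebraMap K (Kb K) (d * b ^ 2)) where
  a1 := by change algebraMap K (Kb K) 0 = 0; simp
  a2 := by rfl
  a3 := by change algebraMap K (Kb K) 0 = 0; simp
  a4 := by
    change algebraMap K (Kb K) (2 * d * a * b) = _
    simp only [map_mul, map_ofNat]; ring
  a6 := by rfl
  rel := by simp only [map_mul, map_pow]; ring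
  hC := by
    rw [Ne, map_eq_zero_iff _ (algebraMap K (Kb K)).injective]
    exact mul_ne_zero h.1 (pow_ne_zero _ h.2.1)
  b1 := by change algebraMap K (Kb K) 0 = 0; simp
  b2 := by
    change algebraMap K (Kb K) (-3 * d * a ^ 2) = _
    simp only [map_mul, map_neg, map_ofNat, map_pow]; ring
  b3 := by change algebraMap K (Kb K) 0 = 0; simp
  b4 := by
    change algebraMap K (Kb K) (2 * (-3 * d) * a * ((27 * b - 4 * a ^ 3 * d) / 9)) = _
    simp only [map_mul, map_neg, map_ofNat, map_pow, map_sub, map_div₀]; ring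
  b6 := by
    change algebraMap K (Kb K) (-3 * d * ((27 * b - 4 * a ^ 3 * d) / 9) ^ 2) = _
    simp only [map_mul, map_neg, map_ofNat, map_pow, map_sub, map_div₀]; ring
  hD := by
    change ((E (-3 * d) a ((27 * b - 4 * a ^ 3 * d) / 9)).map (algebraMap K (Kb K))).Δ ≠ 0
    rw [WeierstrassCurve.map_Δ, Ne, map_eq_zero_iff _ (algebraMap K (Kb K)).injective]
    exact good_delta (good_dual h)
  hD0 := by
    change ((E d a b).map (algebraMap K (Kb K))).Δ ≠ 0
    rw [WeierstrassCurve.map_Δ, Ne, map_eq_zero_iff _ (algebraMap K (Kb K)).injective]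
    exact good_delta h

/-- The 3-isogeny over `Kb`. -/
noncomputable def phi {d a b : K} (h : Good d a b) :
    Pts (E d a b) →+ Pts (E (-3 * d) a ((27 * b - 4 * a ^ 3 * d) / 9)) :=
  (isogData h).hom

/-- The kernel of `phi` is `{O} ∪ {x = 0}`. -/
theorem phi_eq_zero_iff {d a b : K} (h : Good d a b) (P : Pts (E d a b)) :
    phi h P = 0 ↔ P = 0 ∨ ∃ y hP, P = Affine.Point.some 0 y hP :=
  (isogData h).hom_eq_zero_iff P

theorem phi_isogeny {d a b : K} (h : Good d a b) :
    IsIsogeny (E d a b) (E (-3 * d) a ((27 * b - 4 * a ^ 3 * d) / 9)) (phi h) where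
  surj := (isogData h).hom_surjective
  fin := (isogData h).finite_ker.to_subtype
  equivariant g P := by
    rcases P with _ | ⟨x, y, hP⟩
    · rfl
    · change (isogData h).hom (ptsRep _ g (Affine.Point.some x y hP)) =
        ptsRep _ g ((isogData h).hom (Affine.Point.some x y hP))
      rw [(isogData h).hom_apply, (isogData h).hom_apply]
      change (isogData h).fn (Affine.Point.some (g x) (g y) _) = _
      by_cases hx : x = 0
      · rw [(isogData h).fn_of_eq _ hx, (isogData h).fn_of_eq _ (by rw [hx, map_zero])]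
        rfl
      · rw [(isogData h).fn_of_ne _ hx,
          (isogData h).fn_of_ne _ (by rwa [Ne, map_eq_zero_iff _ g.injective])]
        change _ = Affine.Point.some (g _) (g _) _
        simp only [Affine.Point.some.injEq]
        constructor
        · simp only [gx, gn, map_div₀, map_add, map_mul, map_pow, map_ofNat,
            AlgEquiv.commutes]
        · simp only [gy, dn, map_div₀, map_sub, map_mul, map_pow, map_ofNat,
            AlgEquiv.commutes]
  rational := by
    refine ⟨MvPolynomial.X 0 ^ 3 + MvPolynomial.C (4 / 3 * (d * a ^ 2)) * MvPolynomial.X 0 ^ 2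
        + MvPolynomial.C (4 * (d * a * b)) * MvPolynomial.X 0 + MvPolynomial.C (4 * (d * b ^ 2)),
      MvPolynomial.X 0 ^ 2,
      MvPolynomial.X 1 * (MvPolynomial.X 0 ^ 3 - MvPolynomial.C (4 * (d * a * b)) *
        MvPolynomial.X 0 - MvPolynomial.C (8 * (d * b ^ 2))),
      MvPolynomial.X 0 ^ 3, {P | (isogData h).hom P = 0}, (isogData h).finite_ker, ?_⟩
    intro x y hP hs
    have hx : x ≠ 0 := by
      intro hx
      apply hs
      exact (isogData h).fn_of_eq hP hx
    refine ⟨?_, ?_, ?_⟩
    · simp [hx]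
    · simp [hx]
    · have e := (isogData h).fn_of_ne hP hx
      have e1 : MvPolynomial.aeval ![x, y] (MvPolynomial.X 0 ^ 3 +
          MvPolynomial.C (4 / 3 * (d * a ^ 2)) * MvPolynomial.X 0 ^ 2
          + MvPolynomial.C (4 * (d * a * b)) * MvPolynomial.X 0
          + MvPolynomial.C (4 * (d * b ^ 2)) : MvPolynomial (Fin 2) K) /
          MvPolynomial.aeval ![x, y] (MvPolynomial.X 0 ^ 2 : MvPolynomial (Fin 2) K)
          = gx (algebraMap K (Kb K) (d * a ^ 2)) (algebraMap K (Kb K) (d * a * b))
            (algebraMap K (Kb K) (d * b ^ 2)) x := by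
        simp [gx, gn, map_ofNat (algebraMap K (Kb K))]
      have e2 : MvPolynomial.aeval ![x, y] (MvPolynomial.X 1 * (MvPolynomial.X 0 ^ 3 -
          MvPolynomial.C (4 * (d * a * b)) * MvPolynomial.X 0
          - MvPolynomial.C (8 * (d * b ^ 2))) : MvPolynomial (Fin 2) K) /
          MvPolynomial.aeval ![x, y] (MvPolynomial.X 0 ^ 3 : MvPolynomial (Fin 2) K)
          = gy (algebraMap K (Kb K) (d * a * b))
            (algebraMap K (Kb K) (d * b ^ 2)) x y := by
        simp [gy, dn, map_ofNat (algebraMap K (Kb K))]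
      rw [e1, e2]
      exact ⟨_, e⟩

/-- `E d a b` and `E (-3 d) a ((27 b - 4 a³ d) / 9)` are isogenous over `K`. -/
theorem isogeny (d a b : K) (h : Good d a b) :
    Isogenous (E d a b) (E (-3 * d) a ((27 * b - 4 * a ^ 3 * d) / 9)) :=
  ⟨phi h, phi_isogeny h⟩

end Pool.Agent.Helper99.IS
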