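import Pool.Agent.Helper58.IQ.Char

/-!
S4c: the characters `qch d` and `qch (-3 d)` agree on the inertia groups of the primes not above 3.
-/

open scoped NumberField

namespace Pool.Agent.Helper99.IS

open Pool.Agent.Helper58.IQ

variable {K : Type*} [Field K] [CharZero K]

/-- An element of the inertia group of a prime not above 3 fixes every root of `z² + z + 1`. -/
theorem inert_fix {P : Ideal (𝓞 (Kb K))} (hP : P.IsPrime) (h3 : ((3 : ℕ) : 𝓞 (Kb K)) ∉ P)
    {g : GK K} (hg : g ∈ inert P) {z : Kb K} (hz : z ^ 2 + z + 1 = 0) : g z = z := by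
  have hint : IsIntegral ℤ z := by
    refine ⟨Polynomial.X ^ 2 + Polynomial.X + 1, ?_, ?_⟩
    · monicity!
    · simpa using hz
  set Z : 𝓞 (Kb K) := ⟨z, hint⟩ with hZ
  have hgz : (g z) ^ 2 + g z + 1 = 0 := by
    have := congrArg g hz
    simpa using this
  have hprod : (g z - z) * (g z - (-1 - z)) = 0 := by linear_combination hgz - hz
  rcases mul_eq_zero.1 hprod with h | h
  · exact sub_eq_zero.1 h
  · exfalso
    have hmem : g • Z - Z ∈ P := hg Z
    have hval : g • Z - Z = -(1 + 2 * Z) := by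
      apply NumberField.RingOfIntegers.ext
      change g z - z = -(1 + 2 * z)
      linear_combination h
    rw [hval] at hmem
    have h2 : (1 + 2 * Z) ∈ P := by simpa using P.neg_mem hmem
    have h4 : ((3 : ℕ) : 𝓞 (Kb K)) = -((1 + 2 * Z) * (1 + 2 * Z)) := by
      apply NumberField.RingOfIntegers.ext
      change ((3 : ℕ) : Kb K) = -((1 + 2 * z) * (1 + 2 * z))
      push_cast
      linear_combination (4 : Kb K) * hz
    exact h3 (by rw [h4]; exact P.neg_mem (P.mul_mem_left _ h2))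

theorem qch_twist (d : K) {P : Ideal (𝓞 (Kb K))} (hP : P.IsPrime)
    (h3 : ((3 : ℕ) : 𝓞 (Kb K)) ∉ P) {g : GK K} (hg : g ∈ inert P) :
    qch d g = qch (-3 * d) g := by
  by_cases hd : d = 0
  · subst hd; rw [mul_zero]
  obtain ⟨s, hs⟩ := IsAlgClosed.exists_pow_nat_eq (-3 : Kb K) two_pos
  set z : Kb K := (s - 1) / 2 with hzdef
  have hz : z ^ 2 + z + 1 = 0 := by
    rw [hzdef]
    field_simp
    linear_combination hs
  have hfix := inert_fix hP h3 hg hz
  have hs' : s = 2 * z + 1 := by rw [hzdef]; ring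
  have hgs : g s = s := by
    rw [hs', map_add, map_mul, hfix, map_one, map_ofNat]
  have hr0 : sqr d ≠ 0 := by
    intro h0
    have := sqr_sq d
    rw [h0] at this
    have h1 : algebraMap K (Kb K) d = 0 := by rw [← this]; ring
    exact hd ((map_eq_zero_iff _ (algebraMap K (Kb K)).injective).1 h1)
  have hs0 : s ≠ 0 := by
    rintro rfl
    norm_num at hs
  have hsr : (s * sqr d) ^ 2 = algebraMap K (Kb K) (-3 * d) := by
    rw [mul_pow, hs, sqr_sq, map_mul, map_neg, map_ofNat]
  have e1 := qch_spec (-3 * d) g hsr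
  rw [map_mul, hgs, qch_sqr] at e1
  have hne : s * sqr d ≠ 0 := mul_ne_zero hs0 hr0
  have e2 : ((((qch d g : ℤˣ) : ℤ) : Kb K) - (((qch (-3 * d) g : ℤˣ) : ℤ) : Kb K))
      * (s * sqr d) = 0 := by
    rw [zsmul_eq_mul, zsmul_eq_mul] at e1
    linear_combination e1
  have e3 := (mul_eq_zero.1 e2).resolve_right hne
  have e4 : ((qch d g : ℤˣ) : ℤ) = ((qch (-3 * d) g : ℤˣ) : ℤ) := by
    exact_mod_cast sub_eq_zero.1 e3
  exact Units.ext e4

theorem ram_twist {K : Type*} [Field K] [CharZero K] (d : K) (P : Ideal (𝓞 (Kb K)))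
    (hP : P.IsPrime) (h3 : ((3 : ℕ) : 𝓞 (Kb K)) ∉ P) :
    (∀ g ∈ inert P, chRep (qch d) g = 1) ↔ (∀ g ∈ inert P, chRep (qch (-3 * d)) g = 1) := by
  have key : ∀ g ∈ inert P, chRep (qch d) g = chRep (qch (-3 * d)) g := by
    intro g hg
    simp only [chRep, MonoidHom.comp_apply]
    rw [qch_twist d hP h3 hg]
  exact ⟨fun h g hg => by rw [← key g hg]; exact h g hg,
    fun h g hg => by rw [key g hg]; exact h g hg⟩

end Pool.Agent.Helper99.IS
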