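import Pool.Agent.Helper99.IS.Line

/-!
The explicit 3-isogeny: `W : y² = x³ + A x² + 2 B x + C` with `A C = B²`, `C ≠ 0`, kernel
`{O, (0, ±√C)}`, onto `W' : y² = x³ - 3A x² + (8/3 A² - 18 B) x + (8 A B - 27 C - 16/27 A³)`.
-/

open WeierstrassCurve WeierstrassCurve.Affine

namespace Pool.Agent.Helper99.IS

variable {F : Type*} [Field F] [CharZero F]

/-- The pair of curves. -/
structure Isog (W W' : Affine F) (A B C : F) : Prop where
  a1 : W.a₁ = 0
  a2 : W.a₂ = A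
  a3 : W.a₃ = 0
  a4 : W.a₄ = 2 * B
  a6 : W.a₆ = C
  rel : A * C = B ^ 2
  hC : C ≠ 0
  b1 : W'.a₁ = 0
  b2 : W'.a₂ = -3 * A
  b3 : W'.a₃ = 0
  b4 : W'.a₄ = -18 * B + 8 / 3 * A ^ 2
  b6 : W'.a₆ = -27 * C + 8 * A * B - 16 / 27 * A ^ 3
  hD : W'.Δ ≠ 0
  hD0 : W.Δ ≠ 0

/-- the numerator of the abscissa -/
def gn (A B C x : F) : F := x ^ 3 + 4 / 3 * A * x ^ 2 + 4 * B * x + 4 * C

/-- the numerator factor of the ordinate -/
def dn (B C x : F) : F := x ^ 3 - 4 * B * x - 8 * C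

/-- the abscissa of the image -/
def gx (A B C x : F) : F := gn A B C x / x ^ 2

/-- the ordinate of the image -/
def gy (B C x y : F) : F := y * dn B C x / x ^ 3

variable {W W' : Affine F} {A B C : F}

lemma key_a (rel : A * C = B ^ 2) (x : F) :
    (x ^ 3 + A * x ^ 2 + 2 * B * x + C) * dn B C x ^ 2 =
      gn A B C x ^ 3 + (-3 * A) * x ^ 2 * gn A B C x ^ 2
        + (-18 * B + 8 / 3 * A ^ 2) * x ^ 4 * gn A B C x
        + (-27 * C + 8 * A * B - 16 / 27 * A ^ 3) * x ^ 6 := by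
  simp only [dn, gn]
  linear_combination (32 * B * x ^ 3 + 48 * C * x ^ 2 - 24 * x ^ 5) * rel

omit [CharZero F] in
lemma gx_eqn {x : F} (hx : x ≠ 0) (a b c : F) :
    (gx A B C x ^ 3 + a * gx A B C x ^ 2 + b * gx A B C x + c) * x ^ 6 =
      gn A B C x ^ 3 + a * x ^ 2 * gn A B C x ^ 2 + b * x ^ 4 * gn A B C x + c * x ^ 6 := by
  simp only [gx]
  field_simp

/-- The image of a point of `W` is a point of `W'`. -/
lemma Isog.img (h : Isog W W' A B C) {x y : F} (hx : x ≠ 0) (hxy : W.Equation x y) :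
    W'.Equation (gx A B C x) (gy B C x y) := by
  rw [eqn_iff h.a1 h.a3, h.a2, h.a4, h.a6] at hxy
  rw [eqn_iff h.b1 h.b3, h.b2, h.b4, h.b6]
  have h6 : x ^ 6 ≠ 0 := pow_ne_zero _ hx
  apply mul_right_cancel₀ h6
  rw [gx_eqn hx, ← key_a h.rel x, ← hxy, gy]
  field_simp

/-- `x' = x''` up to the symmetric functions. -/
lemma sym1 (A B C x y z : F) :
    gn A B C x * (y * z) ^ 2 + gn A B C y * (x * z) ^ 2 + gn A B C z * (x * y) ^ 2 =
      4 * A * (x * y * z) ^ 2 + 4 * B * (x * y + x * z + y * z) * (x * y * z)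
      - 8 * C * (x + y + z) * (x * y * z) + 4 * C * (x * y + x * z + y * z) ^ 2
      + (x + y + z) * (x * y * z) ^ 2 := by
  simp only [gn]; ring

lemma sym2 (A B C x y z : F) :
    gn A B C x * gn A B C y * z ^ 2 + gn A B C x * gn A B C z * y ^ 2
      + gn A B C y * gn A B C z * x ^ 2 =
    16/3*A^2*(x*y*z)^2 + 32/3*A*B*(x*y+x*z+y*z)*(x*y*z) - 64/3*A*C*(x+y+z)*(x*y*z)
    + 32/3*A*C*(x*y+x*z+y*z)^2 + 8/3*A*(x+y+z)*(x*y*z)^2 + 16*B^2*(x+y+z)*(x*y*z)
    + 16*B*C*(x+y+z)*(x*y+x*z+y*z) - 48*B*C*(x*y*z) + 4*B*(x+y+z)*(x*y+x*z+y*z)*(x*y*z)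
    - 12*B*(x*y*z)^2 + 16*C^2*(x+y+z)^2 - 32*C^2*(x*y+x*z+y*z) - 8*C*(x+y+z)^2*(x*y*z)
    + 4*C*(x+y+z)*(x*y+x*z+y*z)^2 - 4*C*(x*y+x*z+y*z)*(x*y*z)
    + (x*y+x*z+y*z)*(x*y*z)^2 := by
  simp only [gn]; ring

lemma sym3 (A B C x y z : F) :
    gn A B C x * gn A B C y * gn A B C z =
    64/27*A^3*(x*y*z)^2 + 64/9*A^2*B*(x*y+x*z+y*z)*(x*y*z) - 128/9*A^2*C*(x+y+z)*(x*y*z)
    + 64/9*A^2*C*(x*y+x*z+y*z)^2 + 16/9*A^2*(x+y+z)*(x*y*z)^2 + 64/3*A*B^2*(x+y+z)*(x*y*z)
    + 64/3*A*B*C*(x+y+z)*(x*y+x*z+y*z) - 64*A*B*C*(x*y*z)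
    + 16/3*A*B*(x+y+z)*(x*y+x*z+y*z)*(x*y*z) - 16*A*B*(x*y*z)^2 + 64/3*A*C^2*(x+y+z)^2
    - 128/3*A*C^2*(x*y+x*z+y*z) - 32/3*A*C*(x+y+z)^2*(x*y*z)
    + 16/3*A*C*(x+y+z)*(x*y+x*z+y*z)^2 - 16/3*A*C*(x*y+x*z+y*z)*(x*y*z)
    + 4/3*A*(x*y+x*z+y*z)*(x*y*z)^2 + 64*B^3*(x*y*z) + 64*B^2*C*(x*y+x*z+y*z)
    + 16*B^2*(x+y+z)^2*(x*y*z) - 32*B^2*(x*y+x*z+y*z)*(x*y*z) + 64*B*C^2*(x+y+z)
    + 16*B*C*(x+y+z)^2*(x*y+x*z+y*z) - 16*B*C*(x+y+z)*(x*y*z) - 32*B*C*(x*y+x*z+y*z)^2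
    - 8*B*(x+y+z)*(x*y*z)^2 + 4*B*(x*y+x*z+y*z)^2*(x*y*z) + 64*C^3 + 16*C^2*(x+y+z)^3
    - 48*C^2*(x+y+z)*(x*y+x*z+y*z) + 48*C^2*(x*y*z)
    - 12*C*(x+y+z)*(x*y+x*z+y*z)*(x*y*z) + 4*C*(x*y+x*z+y*z)^3 + 12*C*(x*y*z)^2
    + (x*y*z)^3 := by
  simp only [gn]; ring

/-- The slope of the image line, times `m² - C`. -/
def ln (B C l m : F) : F := l * (m ^ 2 + 3 * C) - 4 * B * m

/-- The intercept of the image line, times `m² - C`. -/
def mn (A B C l m : F) : F :=
  (l * (l ^ 2 - A) + m) * (m ^ 2 - C) - 8 * C * m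
    - ln B C l m * (l ^ 2 - A + 4 / 3 * A)

/-- The image of a line not through the kernel is a line. -/
lemma Isog.vieta (h : Isog W W' A B C) {l m x y z : F} (hv : Vieta W l m x y z)
    (hx : x ≠ 0) (hy : y ≠ 0) (hz : z ≠ 0) :
    Vieta W' (ln B C l m / (m ^ 2 - C)) (mn A B C l m / (m ^ 2 - C))
      (gx A B C x) (gx A B C y) (gx A B C z) := by
  have e1 := hv.s1
  have e2 := hv.s2
  have e3 := hv.s3
  rw [h.a2] at e1
  rw [h.a4] at e2
  rw [h.a6] at e3
  have rel := h.rel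
  have hE : m ^ 2 - C ≠ 0 := by rw [← e3]; exact mul_ne_zero (mul_ne_zero hx hy) hz
  have hE2 : (m ^ 2 - C) ^ 2 ≠ 0 := pow_ne_zero _ hE
  have hxyz : x * y * z ≠ 0 := mul_ne_zero (mul_ne_zero hx hy) hz
  constructor
  · rw [h.b2]
    apply mul_right_cancel₀ hE2
    have h1 : (gx A B C x + gx A B C y + gx A B C z) * (x * y * z) ^ 2 =
        gn A B C x * (y * z) ^ 2 + gn A B C y * (x * z) ^ 2 + gn A B C z * (x * y) ^ 2 := by
      simp only [gx]; field_simp
    have h2 : ((ln B C l m / (m ^ 2 - C)) ^ 2 - -3 * A) * (m ^ 2 - C) ^ 2 =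
        ln B C l m ^ 2 + 3 * A * (m ^ 2 - C) ^ 2 := by
      field_simp
      ring
    rw [h2, ← e3, h1, sym1, e1, e2, e3]
    simp only [ln]
    linear_combination (-8 * C + 8 * m ^ 2) * rel
  · rw [h.b4]
    apply mul_right_cancel₀ hE2
    have h1 : (gx A B C x * gx A B C y + gx A B C x * gx A B C z
          + gx A B C y * gx A B C z) * (x * y * z) ^ 2 =
        gn A B C x * gn A B C y * z ^ 2 + gn A B C x * gn A B C z * y ^ 2
          + gn A B C y * gn A B C z * x ^ 2 := by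
      simp only [gx]; field_simp
    have h2 : (-18 * B + 8 / 3 * A ^ 2
          - 2 * (ln B C l m / (m ^ 2 - C)) * (mn A B C l m / (m ^ 2 - C))) * (m ^ 2 - C) ^ 2 =
        (-18 * B + 8 / 3 * A ^ 2) * (m ^ 2 - C) ^ 2 - 2 * ln B C l m * mn A B C l m := by
      field_simp
    rw [h2, ← e3, h1, sym2, e1, e2, e3]
    simp only [ln, mn]
    linear_combination (8 / 3 * A * C + 40 / 3 * A * m ^ 2 - 24 * C * l ^ 2
      + 8 * l ^ 2 * m ^ 2) * rel
  · rw [h.b6]
    apply mul_right_cancel₀ hE2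
    have h1 : (gx A B C x * gx A B C y * gx A B C z) * (x * y * z) ^ 2 =
        gn A B C x * gn A B C y * gn A B C z := by
      simp only [gx]; field_simp
    have h2 : ((mn A B C l m / (m ^ 2 - C)) ^ 2 - (-27 * C + 8 * A * B - 16 / 27 * A ^ 3))
          * (m ^ 2 - C) ^ 2 =
        mn A B C l m ^ 2 - (-27 * C + 8 * A * B - 16 / 27 * A ^ 3) * (m ^ 2 - C) ^ 2 := by
      field_simp
    rw [h2, ← e3, h1, sym3, e1, e2, e3]
    simp only [ln, mn]
    linear_combination (16 / 9 * A ^ 2 * C + 32 / 9 * A ^ 2 * m ^ 2 + 32 / 3 * A * l ^ 2 * m ^ 2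
      - 16 * B * C - 16 * B * m ^ 2 - 16 * C * l ^ 4 - 32 * l * m ^ 3) * rel

/-- The images of the points of the line are on the image line. -/
lemma Isog.on_line (h : Isog W W' A B C) {l m x : F} (hE : m ^ 2 - C ≠ 0) (hx : x ≠ 0)
    (hr : (l * x + m) ^ 2 = x ^ 3 + W.a₂ * x ^ 2 + W.a₄ * x + W.a₆) :
    gy B C x (l * x + m) =
      ln B C l m / (m ^ 2 - C) * gx A B C x + mn A B C l m / (m ^ 2 - C) := by
  rw [h.a2, h.a4, h.a6] at hr
  have rel := h.rel
  have h3 : x ^ 3 * (m ^ 2 - C) ≠ 0 := mul_ne_zero (pow_ne_zero _ hx) hE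
  apply mul_right_cancel₀ h3
  have h1 : gy B C x (l * x + m) * (x ^ 3 * (m ^ 2 - C)) =
      (m ^ 2 - C) * (l * x + m) * dn B C x := by
    simp only [gy]; field_simp
  have h2 : (ln B C l m / (m ^ 2 - C) * gx A B C x + mn A B C l m / (m ^ 2 - C))
      * (x ^ 3 * (m ^ 2 - C)) = x * ln B C l m * gn A B C x + x ^ 3 * mn A B C l m := by
    simp only [gx]; field_simp
  rw [h1, h2]
  simp only [dn, gn, ln, mn]
  linear_combination (-(4 * B * m * x - 4 * C * l * x + 8 * C * m)) * hr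
    - 8 * m * x ^ 2 * rel

/-- A line through the kernel: the two other points have opposite images. -/
lemma Isog.through (h : Isog W W' A B C) {l m x y : F} (hv : Vieta W l m x y 0)
    (hx : x ≠ 0) (hy : y ≠ 0) :
    gx A B C x = gx A B C y ∧ gy B C x (l * x + m) = -gy B C y (l * y + m) := by
  have e1 := hv.s1
  have e2 := hv.s2
  have e3 := hv.s3
  rw [h.a2] at e1
  rw [h.a4] at e2
  rw [h.a6] at e3
  have rel := h.rel
  have hC : C = m ^ 2 := by linear_combination e3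
  have hs : x + y = l ^ 2 - A := by linear_combination e1
  have hp : x * y = 2 * B - 2 * l * m := by linear_combination e2
  subst hC
  have hxy : x * y ≠ 0 := mul_ne_zero hx hy
  have q : (x * y) ^ 2 - 4 * B * (x * y) - 4 * m ^ 2 * (x + y) = 0 := by
    rw [hs, hp]; linear_combination 4 * rel
  constructor
  · rw [gx, gx, div_eq_div_iff (pow_ne_zero _ hx) (pow_ne_zero _ hy)]
    simp only [gn]
    linear_combination (x - y) * q
  · rw [gy, gy, ← neg_div, div_eq_div_iff (pow_ne_zero _ hx) (pow_ne_zero _ hy)]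
    have h1 : (l * x + m) * dn B (m ^ 2) x * y ^ 3 + (l * y + m) * dn B (m ^ 2) y * x ^ 3 =
        l * (x * y) ^ 3 * (x + y) - 4 * B * l * (x * y) ^ 2 * (x + y)
          - 8 * m ^ 2 * l * (x * y) * ((x + y) ^ 2 - 2 * (x * y)) + 2 * m * (x * y) ^ 3
          - 4 * B * m * (x * y) * ((x + y) ^ 2 - 2 * (x * y))
          - 8 * m ^ 2 * m * ((x + y) ^ 3 - 3 * (x * y) * (x + y)) := by
      simp only [dn]; ring
    rw [hs, hp] at h1
    linear_combination h1 + (8 * A ^ 2 * m - 8 * A * B * l - 8 * A * l ^ 2 * m + 8 * B * l ^ 3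
      - 48 * B * m + 48 * l * m ^ 2) * rel

/-- If a line through the kernel meets the curve again in the kernel, it does so twice. -/
lemma Isog.through_zero (h : Isog W W' A B C) {l m y : F} (hv : Vieta W l m 0 y 0) :
    y = 0 := by
  have e1 := hv.s1
  have e2 := hv.s2
  have e3 := hv.s3
  rw [h.a2] at e1
  rw [h.a4] at e2
  rw [h.a6] at e3
  have rel := h.rel
  have hC : C = m ^ 2 := by linear_combination e3
  have hB : B = l * m := by linear_combination (-1 / 2 : F) * e2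
  have hC0 := h.hC
  have : y * C = 0 := by
    subst hC hB
    linear_combination m ^ 2 * e1 - rel
  exact (mul_eq_zero.mp this).resolve_right hC0

omit [CharZero F] in
lemma Vieta.swap23 {l m x₁ x₂ x₃ : F} (h : Vieta W l m x₁ x₂ x₃) : Vieta W l m x₁ x₃ x₂ :=
  ⟨by rw [← h.s1]; ring, by rw [← h.s2]; ring, by rw [← h.s3]; ring⟩

omit [CharZero F] in
lemma Vieta.swap12 {l m x₁ x₂ x₃ : F} (h : Vieta W l m x₁ x₂ x₃) : Vieta W l m x₂ x₁ x₃ :=
  ⟨by rw [← h.s1]; ring, by rw [← h.s2]; ring, by rw [← h.s3]; ring⟩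

section Map

variable [DecidableEq F]

/-- The 3-isogeny as a map on points. -/
noncomputable def Isog.fn (h : Isog W W' A B C) : W.Point → W'.Point
  | .zero => .zero
  | .some x y hP => if hx : x = 0 then .zero else
      .some (gx A B C x) (gy B C x y)
        ((equation_iff_nonsingular_of_Δ_ne_zero h.hD).mp (h.img hx hP.1))

lemma Isog.fn_zero (h : Isog W W' A B C) : h.fn 0 = 0 := rfl

lemma Isog.fn_of_eq (h : Isog W W' A B C) {x y : F} (hP : W.Nonsingular x y) (hx : x = 0) :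
    h.fn (.some x y hP) = 0 := by
  simp only [Isog.fn, dif_pos hx]; rfl

lemma Isog.fn_of_ne (h : Isog W W' A B C) {x y : F} (hP : W.Nonsingular x y) (hx : x ≠ 0) :
    h.fn (.some x y hP) = .some (gx A B C x) (gy B C x y)
        ((equation_iff_nonsingular_of_Δ_ne_zero h.hD).mp (h.img hx hP.1)) := by
  simp only [Isog.fn, dif_neg hx]

lemma Isog.fn_neg (h : Isog W W' A B C) (P : W.Point) : h.fn (-P) = -h.fn P := by
  rcases P with _ | ⟨x, y, hP⟩
  · change h.fn (-0) = -(h.fn 0)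
    rw [neg_zero, h.fn_zero, neg_zero]
  · rw [Point.neg_some]
    by_cases hx : x = 0
    · rw [h.fn_of_eq _ hx, h.fn_of_eq _ hx, neg_zero]
    · rw [h.fn_of_ne _ hx, h.fn_of_ne _ hx, Point.neg_some]
      simp only [Point.some.injEq, true_and, negY_eq h.a1 h.a3, negY_eq h.b1 h.b3]
      simp only [gy]; ring

/-- Case of a line through the kernel. -/
lemma Isog.fn_through (h : Isog W W' A B C) {l m x y z : F} (hv : Vieta W l m x y z)
    (hz : z = 0) (n₁ : W.Nonsingular x (l * x + m)) (n₂ : W.Nonsingular y (l * y + m)) :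
    h.fn (.some x (l * x + m) n₁) + h.fn (.some y (l * y + m) n₂) = 0 := by
  subst hz
  by_cases hx : x = 0
  · subst hx
    have hy := h.through_zero hv
    rw [h.fn_of_eq _ rfl, h.fn_of_eq _ hy, add_zero]
  · by_cases hy : y = 0
    · subst hy
      exact absurd (h.through_zero hv.swap12) hx
    · obtain ⟨h1, h2⟩ := h.through hv hx hy
      rw [h.fn_of_ne _ hx, h.fn_of_ne _ hy]
      exact Point.add_of_Y_eq h1 (by rw [negY_eq h.b1 h.b3]; exact h2)

/-- Three points on a line have images with sum zero. -/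
theorem Isog.fn_line (h : Isog W W' A B C) {l m x y z : F} (hv : Vieta W l m x y z)
    (n₁ : W.Nonsingular x (l * x + m)) (n₂ : W.Nonsingular y (l * y + m))
    (n₃ : W.Nonsingular z (l * z + m)) :
    h.fn (.some x (l * x + m) n₁) + h.fn (.some y (l * y + m) n₂)
      + h.fn (.some z (l * z + m) n₃) = 0 := by
  by_cases hz : z = 0
  · rw [h.fn_of_eq n₃ hz, add_zero]
    exact h.fn_through hv hz n₁ n₂
  by_cases hy : y = 0
  · rw [h.fn_of_eq n₂ hy, add_zero]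
    exact h.fn_through hv.swap23 hy n₁ n₃
  by_cases hx : x = 0
  · rw [h.fn_of_eq n₁ hx, zero_add]
    exact h.fn_through hv.swap12.swap23 hx n₂ n₃
  have hE : m ^ 2 - C ≠ 0 := by
    rw [← h.a6, ← hv.s3]
    exact mul_ne_zero (mul_ne_zero hx hy) hz
  rw [h.fn_of_ne _ hx, h.fn_of_ne _ hy, h.fn_of_ne _ hz]
  have ox := h.on_line hE hx (hv.root x (Or.inl rfl))
  have oy := h.on_line hE hy (hv.root y (Or.inr (Or.inl rfl)))
  have oz := h.on_line hE hz (hv.root z (Or.inr (Or.inr rfl)))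
  have hv' := h.vieta hv hx hy hz
  have m₁ := (equation_iff_nonsingular_of_Δ_ne_zero h.hD).mp (h.img hx n₁.1)
  have m₂ := (equation_iff_nonsingular_of_Δ_ne_zero h.hD).mp (h.img hy n₂.1)
  have m₃ := (equation_iff_nonsingular_of_Δ_ne_zero h.hD).mp (h.img hz n₃.1)
  have res := line_backward h.b1 h.b3 two_ne_zero hv' (ox ▸ m₁) (oy ▸ m₂) (oz ▸ m₃)
  simp only [ox, oy, oz]
  exact res

theorem Isog.fn_add (h : Isog W W' A B C) (P Q : W.Point) : h.fn (P + Q) = h.fn P + h.fn Q := by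
  rcases P with _ | ⟨x₁, y₁, n₁⟩
  · change h.fn (0 + Q) = h.fn 0 + h.fn Q
    rw [zero_add, h.fn_zero, zero_add]
  rcases Q with _ | ⟨x₂, y₂, n₂⟩
  · change h.fn (_ + 0) = _ + h.fn 0
    rw [add_zero, h.fn_zero, add_zero]
  by_cases hne : x₁ = x₂ ∧ y₁ = -y₂
  · have hneg : Point.some x₂ y₂ n₂ = -Point.some x₁ y₁ n₁ := by
      rw [Point.neg_some]
      simp only [Point.some.injEq, negY_eq h.a1 h.a3]
      exact ⟨hne.1.symm, by rw [hne.2]; ring⟩
    rw [hneg, add_neg_cancel, h.fn_neg, add_neg_cancel, h.fn_zero]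
  · obtain ⟨l, m, x₃, n₃, hv, e₁, e₂, hadd⟩ := line_forward h.a1 h.a3 n₁ n₂ hne
    rw [hadd, h.fn_neg]
    subst e₁ e₂
    rw [neg_eq_iff_add_eq_zero, add_comm]
    exact h.fn_line hv n₁ n₂ n₃

/-- The 3-isogeny. -/
noncomputable def Isog.hom (h : Isog W W' A B C) : W.Point →+ W'.Point where
  toFun := h.fn
  map_zero' := h.fn_zero
  map_add' := h.fn_add

lemma Isog.hom_apply (h : Isog W W' A B C) (P : W.Point) : h.hom P = h.fn P := rfl

/-- The kernel of the 3-isogeny. -/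
theorem Isog.hom_eq_zero_iff (h : Isog W W' A B C) (P : W.Point) :
    h.hom P = 0 ↔ P = 0 ∨ ∃ y hP, P = .some 0 y hP := by
  rcases P with _ | ⟨x, y, hP⟩
  · exact ⟨fun _ => Or.inl rfl, fun _ => h.fn_zero⟩
  · constructor
    · intro h0
      by_cases hx : x = 0
      · subst hx; exact Or.inr ⟨y, hP, rfl⟩
      · rw [h.hom_apply, h.fn_of_ne _ hx] at h0
        exact absurd h0 (Point.some_ne_zero _)
    · rintro (h0 | ⟨y', hP', h0⟩)
      · exact absurd h0 (Point.some_ne_zero _)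
      · simp only [Point.some.injEq] at h0
        exact h.fn_of_eq hP h0.1

/-- The kernel is finite. -/
theorem Isog.finite_ker (h : Isog W W' A B C) : {P : W.Point | h.hom P = 0}.Finite := by
  by_cases hex : ∃ y, ∃ hP : W.Nonsingular 0 y, True
  · obtain ⟨y₀, h₀, -⟩ := hex
    refine Set.Finite.subset (Set.toFinite {0, Point.some 0 y₀ h₀, -Point.some 0 y₀ h₀}) ?_
    intro P hP
    rcases (h.hom_eq_zero_iff P).mp hP with rfl | ⟨y, hy, rfl⟩
    · simp
    · rcases (Point.X_eq_iff (h₁ := hy) (h₂ := h₀)).mp rfl with h1 | h1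
      · rw [h1]; simp
      · rw [h1]; simp
  · refine Set.Finite.subset (Set.toFinite {0}) ?_
    intro P hP
    rcases (h.hom_eq_zero_iff P).mp hP with rfl | ⟨y, hy, rfl⟩
    · simp
    · exact absurd ⟨y, hy, trivial⟩ hex

/-- Over an algebraically closed field the 3-isogeny is surjective. -/
theorem Isog.hom_surjective [IsAlgClosed F] (h : Isog W W' A B C) :
    Function.Surjective h.hom := by
  rintro (_ | ⟨X, Y, hQ⟩)
  · exact ⟨0, map_zero _⟩
  · have hXY := (eqn_iff h.b1 h.b3 X Y).mp hQ.1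
    rw [h.b2, h.b4, h.b6] at hXY
    set p : Cubic F := ⟨1, 4 / 3 * A - X, 4 * B, 4 * C⟩ with hp
    have hdeg : p.toPoly.degree ≠ 0 := by
      rw [Cubic.degree_of_a_ne_zero (by rw [hp]; exact one_ne_zero)]
      decide
    obtain ⟨x, hx⟩ := IsAlgClosed.exists_root p.toPoly hdeg
    have hx' : x ^ 3 + (4 / 3 * A - X) * x ^ 2 + 4 * B * x + 4 * C = 0 := by
      have := hx
      simp only [Polynomial.IsRoot, Cubic.toPoly, hp, Polynomial.eval_add, Polynomial.eval_mul,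
        Polynomial.eval_C, Polynomial.eval_pow, Polynomial.eval_X, one_mul] at this
      exact this
    have hx0 : x ≠ 0 := by
      rintro rfl
      apply h.hC
      have : (4 : F) * C = 0 := by linear_combination hx'
      exact (mul_eq_zero.mp this).resolve_left (by norm_num)
    have hgn : gn A B C x = X * x ^ 2 := by
      simp only [gn]; linear_combination hx'
    have hgx : gx A B C x = X := by
      rw [gx, hgn]; field_simp
    have hk : (x ^ 3 + A * x ^ 2 + 2 * B * x + C) * dn B C x ^ 2 = x ^ 6 * Y ^ 2 := by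
      rw [key_a h.rel, hgn, hXY]; ring
    have main : ∃ y, y ^ 2 = x ^ 3 + A * x ^ 2 + 2 * B * x + C ∧ gy B C x y = Y := by
      by_cases hd : dn B C x = 0
      · have hY : Y = 0 := by
          rw [hd] at hk
          have h0 : x ^ 6 * Y ^ 2 = 0 := by rw [← hk]; ring
          exact pow_eq_zero_iff two_ne_zero |>.mp
            ((mul_eq_zero.mp h0).resolve_left (pow_ne_zero _ hx0))
        obtain ⟨y, hy⟩ := IsAlgClosed.exists_pow_nat_eq
          (x ^ 3 + A * x ^ 2 + 2 * B * x + C) (n := 2) (by norm_num)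
        exact ⟨y, hy, by rw [gy, hd, hY]; simp⟩
      · refine ⟨Y * x ^ 3 / dn B C x, ?_, ?_⟩
        · rw [div_pow, div_eq_iff (pow_ne_zero _ hd), hk]; ring
        · rw [gy]; field_simp
    obtain ⟨y, hy, hgy⟩ := main
    have hP : W.Nonsingular x y := (equation_iff_nonsingular_of_Δ_ne_zero h.hD0).mp
      ((eqn_iff h.a1 h.a3 x y).mpr (by rw [h.a2, h.a4, h.a6]; exact hy))
    refine ⟨Point.some x y hP, ?_⟩
    rw [h.hom_apply, h.fn_of_ne _ hx0]
    simp only [Point.some.injEq]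
    exact ⟨hgx, hgy⟩

end Map

end Pool.Agent.Helper99.IS
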