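import Mathlib

/-!
Lines on a short Weierstrass curve `y² = x³ + a₂ x² + a₄ x + a₆` (`a₁ = a₃ = 0`), characteristic
different from `2`: three points of the curve on a line `y = l x + m` (with multiplicities, in the
form of the three Vieta relations) have sum zero, and conversely.
-/

open WeierstrassCurve WeierstrassCurve.Affine Polynomial

namespace Pool.Agent.Helper99.IS

variable {F : Type*} [Field F]

/-- Vieta's relations for the intersection of `y = l x + m` with the curve `W`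
(`a₁ = a₃ = 0`): `x₁, x₂, x₃` are the abscissas, with multiplicities. -/
structure Vieta (W : Affine F) (l m x₁ x₂ x₃ : F) : Prop where
  s1 : x₁ + x₂ + x₃ = l ^ 2 - W.a₂
  s2 : x₁ * x₂ + x₁ * x₃ + x₂ * x₃ = W.a₄ - 2 * l * m
  s3 : x₁ * x₂ * x₃ = m ^ 2 - W.a₆

variable {W : Affine F}

lemma negY_eq (h1 : W.a₁ = 0) (h3 : W.a₃ = 0) (x y : F) : W.negY x y = -y := by
  simp [negY, h1, h3]

lemma eqn_iff (h1 : W.a₁ = 0) (h3 : W.a₃ = 0) (x y : F) :
    W.Equation x y ↔ y ^ 2 = x ^ 3 + W.a₂ * x ^ 2 + W.a₄ * x + W.a₆ := by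
  rw [equation_iff, h1, h3]
  simp

/-- The abscissas of the three points satisfy the equation of the line cut. -/
lemma Vieta.root {l m x₁ x₂ x₃ : F} (h : Vieta W l m x₁ x₂ x₃) (x : F)
    (hx : x = x₁ ∨ x = x₂ ∨ x = x₃) :
    (l * x + m) ^ 2 = x ^ 3 + W.a₂ * x ^ 2 + W.a₄ * x + W.a₆ := by
  have e1 := h.s1
  have e2 := h.s2
  have e3 := h.s3
  have key : x ^ 3 + W.a₂ * x ^ 2 + W.a₄ * x + W.a₆ - (l * x + m) ^ 2 =
      (x - x₁) * (x - x₂) * (x - x₃) := by
    linear_combination x ^ 2 * e1 - x * e2 + e3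
  have hz : (x - x₁) * (x - x₂) * (x - x₃) = 0 := by
    rcases hx with rfl | rfl | rfl <;> simp
  rw [hz] at key
  exact (sub_eq_zero.mp key).symm

variable [DecidableEq F]

/-- Two points with nonzero sum: the line through them. -/
theorem line_forward (h1 : W.a₁ = 0) (h3 : W.a₃ = 0) {x₁ y₁ x₂ y₂ : F}
    (n₁ : W.Nonsingular x₁ y₁) (n₂ : W.Nonsingular x₂ y₂) (hne : ¬(x₁ = x₂ ∧ y₁ = -y₂)) :
    ∃ l m x₃ : F, ∃ n₃ : W.Nonsingular x₃ (l * x₃ + m),
      Vieta W l m x₁ x₂ x₃ ∧ y₁ = l * x₁ + m ∧ y₂ = l * x₂ + m ∧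
      Point.some x₁ y₁ n₁ + Point.some x₂ y₂ n₂ = -Point.some x₃ (l * x₃ + m) n₃ := by
  have hne' : ¬(x₁ = x₂ ∧ y₁ = W.negY x₂ y₂) := by rwa [negY_eq h1 h3]
  set l := W.slope x₁ x₂ y₁ y₂ with hl
  set m := y₁ - l * x₁ with hm
  set x₃ := W.addX x₁ x₂ l with hx3
  have hx3' : x₃ = l ^ 2 - W.a₂ - x₁ - x₂ := by simp [hx3, h1]
  have hy3 : W.negAddY x₁ x₂ y₁ l = l * x₃ + m := by
    simp only [negAddY, ← hx3, hm]; ring
  have n₃ : W.Nonsingular x₃ (l * x₃ + m) := by
    rw [← hy3]; exact nonsingular_negAdd n₁ n₂ hne'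
  have hadd : Point.some x₁ y₁ n₁ + Point.some x₂ y₂ n₂ = -Point.some x₃ (l * x₃ + m) n₃ := by
    rw [Point.add_some hne', Point.neg_some]
    simp only [Point.some.injEq]
    refine ⟨rfl, ?_⟩
    rw [addY]
    exact congrArg _ hy3
  have hp := addPolynomial_slope n₁.1 n₂.1 hne'
  rw [addPolynomial_eq, ← hl, ← hx3, neg_inj, Cubic.prod_X_sub_C_eq, Cubic.toPoly_injective] at hp
  have hb := congrArg Cubic.b hp
  have hc := congrArg Cubic.c hp
  have hd := congrArg Cubic.d hp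
  simp only [h1, h3] at hb hc hd
  refine ⟨l, m, x₃, n₃, ⟨?_, ?_, ?_⟩, ?_, ?_, hadd⟩
  · rw [hx3']; ring
  · linear_combination -hc + 0 * hm
  · linear_combination hd
  · rw [hm]; ring
  · by_cases hx : x₁ = x₂
    · have hy : y₁ ≠ W.negY x₂ y₂ := fun h => hne' ⟨hx, h⟩
      have := Y_eq_of_Y_ne n₁.1 n₂.1 hx hy
      rw [hm, ← this, hx]; ring
    · rw [hm, hl, slope_of_X_ne hx]
      have : x₁ - x₂ ≠ 0 := sub_ne_zero.mpr hx
      field_simp
      ring

/-- Three points on a line (with multiplicities) have sum zero. -/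
theorem line_backward (h1 : W.a₁ = 0) (h3 : W.a₃ = 0) (h2 : (2 : F) ≠ 0)
    {l m x₁ x₂ x₃ : F} (hv : Vieta W l m x₁ x₂ x₃)
    (n₁ : W.Nonsingular x₁ (l * x₁ + m)) (n₂ : W.Nonsingular x₂ (l * x₂ + m))
    (n₃ : W.Nonsingular x₃ (l * x₃ + m)) :
    Point.some x₁ (l * x₁ + m) n₁ + Point.some x₂ (l * x₂ + m) n₂
      + Point.some x₃ (l * x₃ + m) n₃ = 0 := by
  rw [add_eq_zero_iff_eq_neg]
  have e1 := hv.s1
  have e2 := hv.s2
  have e3 := hv.s3
  -- it suffices that the slope is `l`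
  have main : ¬(x₁ = x₂ ∧ (l * x₁ + m) = W.negY x₂ (l * x₂ + m)) ∧
      W.slope x₁ x₂ (l * x₁ + m) (l * x₂ + m) = l := by
    by_cases hx : x₁ = x₂
    · subst hx
      have hder : 3 * x₁ ^ 2 + 2 * W.a₂ * x₁ + W.a₄ = 2 * l * (l * x₁ + m) := by
        linear_combination 2 * x₁ * e1 - e2
      have hy0 : l * x₁ + m ≠ 0 := by
        intro h0
        have hs := ((W.nonsingular_iff _ _).mp n₁).2
        rw [h0] at hs hder
        rw [h1, h3] at hs
        simp only [mul_zero, zero_mul, sub_zero, neg_zero, ne_eq, not_true_eq_false,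
          or_false] at hs
        exact hs (by linear_combination -hder)
      have hyne : l * x₁ + m ≠ W.negY x₁ (l * x₁ + m) := by
        rw [negY_eq h1 h3]
        intro h
        have : 2 * (l * x₁ + m) = 0 := by linear_combination h
        exact (mul_ne_zero h2 hy0) this
      refine ⟨fun h => hyne h.2, ?_⟩
      rw [slope_of_Y_ne rfl hyne, negY_eq h1 h3, h1]
      have : l * x₁ + m - -(l * x₁ + m) ≠ 0 := by
        intro h
        have : 2 * (l * x₁ + m) = 0 := by linear_combination h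
        exact (mul_ne_zero h2 hy0) this
      rw [div_eq_iff this]
      linear_combination hder
    · refine ⟨fun h => hx h.1, ?_⟩
      rw [slope_of_X_ne hx]
      have : x₁ - x₂ ≠ 0 := sub_ne_zero.mpr hx
      field_simp
      ring
  obtain ⟨hne, hsl⟩ := main
  rw [Point.add_some hne, Point.neg_some]
  simp only [Point.some.injEq]
  have hx : W.addX x₁ x₂ (W.slope x₁ x₂ (l * x₁ + m) (l * x₂ + m)) = x₃ := by
    rw [hsl]; simp only [addX, h1]; linear_combination -e1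
  refine ⟨hx, ?_⟩
  rw [addY, hx, negAddY, hx, hsl]
  congr 1
  ring

end Pool.Agent.Helper99.IS
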